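import Pool.Agent.Helper741_HFC.Core

set_option autoImplicit false

/-!
# Every HFC space is strongly D

This answers Question 1 of MP_1e45a6_gt positively; the hypothesis of the question that countable
subsets of `X` have Menger closure is not needed.  The index set `λ` is replaced by an arbitrary
linearly ordered type `ι`, so the case of an uncountable cardinal `λ` (with the order of the
ordinals below `λ`) is included.  The proof is described in `Pool/Agent/Helper741_HFC/Core.lean`.
-/

namespace Pool.Agent.Results.MP_1e45a6_gt.StronglyD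

open Set Pool.Agent.Helper741_HFC

universe u

/-- A topological space `Z` is *strongly D* if for every neighbourhood assignment `U` there is
`D ⊆ Z` with `⋃ x ∈ D, U x = Z` such that each `z` has a (nonempty) finite set `F` with
`z ∈ ⋂ x ∈ F, U x` and `(⋂ x ∈ F, U x) ∩ D` finite. -/
def IsStronglyD (Z : Type u) [TopologicalSpace Z] : Prop :=
  ∀ U : Z → Set Z, (∀ x, IsOpen (U x) ∧ x ∈ U x) →
    ∃ D : Set Z, (⋃ x ∈ D, U x) = univ ∧
      ∀ z : Z, ∃ F : Set Z, F.Finite ∧ F.Nonempty ∧ z ∈ (⋂ x ∈ F, U x) ∧
        ((⋂ x ∈ F, U x) ∩ D).Finite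

/-- **MP_1e45a6_gt, Question 1, positive answer in a stronger form.**  Every HFC space `X ⊆ 2^ι`
is strongly D. -/
theorem result {ι : Type u} [LinearOrder ι] (X : Set (ι → Bool)) (hX : IsHFC X) :
    IsStronglyD X :=
  fun U hU => hfc_kernel X hX U hU

end Pool.Agent.Results.MP_1e45a6_gt.StronglyD
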